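import Pool.Agent.W225.TD2.Stm

set_option autoImplicit false

open Finset

namespace Pool.Agent.W997.TD2UB

open Pool.Agent.W225.TD2

/-- the five families of edges -/
def ed (n : ℕ) : Fin 5 → Fin (n + 4) → (Fin 3 × Fin (n + 4)) × (Fin 3 × Fin (n + 4)) :=
  ![fun i => ((0, i), (0, i + 1)), fun i => ((0, i), (1, i)), fun i => ((0, i), (2, i + 1)),
    fun i => ((1, i), (2, i)), fun i => ((2, i), (1, i + 1))]

theorem ed_ne (n : ℕ) (f : Fin 5) (i : Fin (n + 4)) : (ed n f i).1 ≠ (ed n f i).2 := by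
  fin_cases f
  · intro h
    have h1 : i = i + 1 := congrArg Prod.snd h
    have h2 : (1 : Fin (n + 4)) = 0 := by
      have h3 : i + 0 = i + 1 := by rw [add_zero]; exact h1
      exact (add_left_cancel h3).symm
    have h4 := congrArg Fin.val h2
    simp at h4
  · intro h
    have h1 : (0 : Fin 3) = 1 := congrArg Prod.fst h
    exact absurd h1 (by decide)
  · intro h
    have h1 : (0 : Fin 3) = 2 := congrArg Prod.fst h
    exact absurd h1 (by decide)
  · intro h
    have h1 : (1 : Fin 3) = 2 := congrArg Prod.fst h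
    exact absurd h1 (by decide)
  · intro h
    have h1 : (2 : Fin 3) = 1 := congrArg Prod.fst h
    exact absurd h1 (by decide)

/-- the graph on pairs -/
def G0 (n : ℕ) : SimpleGraph (Fin 3 × Fin (n + 4)) :=
  SimpleGraph.fromRel (fun p q => ∃ f i, ed n f i = (p, q))

/-- the graph -/
def GG (n : ℕ) : SimpleGraph (Fin (3 * (n + 4))) :=
  (G0 n).comap (finProdFinEquiv (m := 3) (n := n + 4)).symm

theorem adj_iff (n : ℕ) (u v : Fin (3 * (n + 4))) : (GG n).Adj u v ↔
    u ≠ v ∧ ((∃ f i, ed n f i = (finProdFinEquiv.symm u, finProdFinEquiv.symm v)) ∨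
      ∃ f i, ed n f i = (finProdFinEquiv.symm v, finProdFinEquiv.symm u)) := by
  unfold GG G0
  rw [SimpleGraph.comap_adj, SimpleGraph.fromRel_adj]
  constructor
  · rintro ⟨h1, h2⟩
    exact ⟨fun h => h1 (by rw [h]), h2⟩
  · rintro ⟨h1, h2⟩
    exact ⟨fun h => h1 (finProdFinEquiv.symm.injective h), h2⟩

/-- the indicator function -/
noncomputable def ind {n : ℕ} (S : Finset (Fin (3 * (n + 4)))) (p : Fin 3 × Fin (n + 4)) : ℕ :=
  if finProdFinEquiv p ∈ S then 1 else 0

theorem ind_le {n : ℕ} (S : Finset (Fin (3 * (n + 4)))) (p : Fin 3 × Fin (n + 4)) :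
    ind S p ≤ 1 := by
  unfold ind
  split_ifs <;> simp

theorem card_eq {n : ℕ} (S : Finset (Fin (3 * (n + 4)))) :
    S.card = ∑ i, (ind S (0, i) + ind S (1, i) + ind S (2, i)) := by
  have h1 : S.card = ∑ v : Fin (3 * (n + 4)), if v ∈ S then 1 else 0 := by
    rw [Finset.sum_ite_mem, Finset.univ_inter, Finset.sum_const, smul_eq_mul, mul_one]
  have h2 : (∑ v : Fin (3 * (n + 4)), if v ∈ S then 1 else 0) =
      ∑ p : Fin 3 × Fin (n + 4), ind S p :=
    (Equiv.sum_comp (finProdFinEquiv (m := 3) (n := n + 4))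
      (fun v => if v ∈ S then 1 else 0)).symm
  rw [h1, h2, Fintype.sum_prod_type, Fin.sum_univ_three, Finset.sum_add_distrib,
    Finset.sum_add_distrib]

/-- the number of the edges inside `S` -/
noncomputable def es {n : ℕ} (S : Finset (Fin (3 * (n + 4)))) : ℕ :=
  ∑ i, (ind S (0, i) * ind S (0, i + 1) + ind S (0, i) * ind S (1, i) +
    ind S (0, i) * ind S (2, i + 1) + ind S (1, i) * ind S (2, i) +
    ind S (2, i) * ind S (1, i + 1))

theorem es_eq {n : ℕ} (S : Finset (Fin (3 * (n + 4)))) :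
    es S = ∑ f : Fin 5, ∑ i, ind S (ed n f i).1 * ind S (ed n f i).2 := by
  rw [Fin.sum_univ_five]
  unfold es
  simp only [Finset.sum_add_distrib]
  rfl

theorem arcs_le {n : ℕ} (S : Finset (Fin (3 * (n + 4)))) : arcs (GG n) S ≤ 2 * es S := by
  classical
  let C : (Fin 5 × Bool) × Fin (n + 4) → Fin (3 * (n + 4)) × Fin (3 * (n + 4)) := fun x =>
    if x.1.2 then (finProdFinEquiv (ed n x.1.1 x.2).1, finProdFinEquiv (ed n x.1.1 x.2).2)
    else (finProdFinEquiv (ed n x.1.1 x.2).2, finProdFinEquiv (ed n x.1.1 x.2).1)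
  let T : Finset ((Fin 5 × Bool) × Fin (n + 4)) := Finset.univ.filter (fun x =>
    finProdFinEquiv (ed n x.1.1 x.2).1 ∈ S ∧ finProdFinEquiv (ed n x.1.1 x.2).2 ∈ S)
  have h1 : arcs (GG n) S ≤ T.card := by
    unfold arcs
    refine (card_le_card (t := T.image C) ?_).trans card_image_le
    rintro ⟨u, v⟩ huv
    rw [mem_filter] at huv
    obtain ⟨-, hu, hv, ha⟩ := huv
    rw [adj_iff] at ha
    obtain ⟨-, ⟨f, i, hfi⟩ | ⟨f, i, hfi⟩⟩ := ha
    · rw [mem_image]
      refine ⟨((f, true), i), ?_, ?_⟩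
      · rw [mem_filter]
        refine ⟨mem_univ _, ?_, ?_⟩
        · show finProdFinEquiv (ed n f i).1 ∈ S
          rw [hfi, Equiv.apply_symm_apply]
          exact hu
        · show finProdFinEquiv (ed n f i).2 ∈ S
          rw [hfi, Equiv.apply_symm_apply]
          exact hv
      · show (finProdFinEquiv (ed n f i).1, finProdFinEquiv (ed n f i).2) = (u, v)
        rw [hfi, Equiv.apply_symm_apply, Equiv.apply_symm_apply]
    · rw [mem_image]
      refine ⟨((f, false), i), ?_, ?_⟩
      · rw [mem_filter]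
        refine ⟨mem_univ _, ?_, ?_⟩
        · show finProdFinEquiv (ed n f i).1 ∈ S
          rw [hfi, Equiv.apply_symm_apply]
          exact hv
        · show finProdFinEquiv (ed n f i).2 ∈ S
          rw [hfi, Equiv.apply_symm_apply]
          exact hu
      · show (finProdFinEquiv (ed n f i).2, finProdFinEquiv (ed n f i).1) = (u, v)
        rw [hfi, Equiv.apply_symm_apply, Equiv.apply_symm_apply]
  have h2 : T.card = 2 * es S := by
    have h3 : ∀ x : (Fin 5 × Bool) × Fin (n + 4),
        (if finProdFinEquiv (ed n x.1.1 x.2).1 ∈ S ∧ finProdFinEquiv (ed n x.1.1 x.2).2 ∈ S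
          then 1 else 0) = ind S (ed n x.1.1 x.2).1 * ind S (ed n x.1.1 x.2).2 := by
      intro x
      unfold ind
      by_cases h1 : finProdFinEquiv (ed n x.1.1 x.2).1 ∈ S <;>
        by_cases h2 : finProdFinEquiv (ed n x.1.1 x.2).2 ∈ S <;> simp [h1, h2]
    show (Finset.univ.filter (fun x : (Fin 5 × Bool) × Fin (n + 4) =>
      finProdFinEquiv (ed n x.1.1 x.2).1 ∈ S ∧ finProdFinEquiv (ed n x.1.1 x.2).2 ∈ S)).card = _
    rw [card_filter, Finset.sum_congr rfl (fun x _ => h3 x), Fintype.sum_prod_type,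
      Fintype.sum_prod_type, es_eq, Finset.mul_sum]
    refine Finset.sum_congr rfl fun f _ => ?_
    rw [Fintype.sum_bool, two_mul]
  exact h1.trans h2.le

theorem ub : S_ALPHA → S_SPARSE → S_UB := by
  classical
  intro hA hS k hk
  obtain ⟨n, rfl⟩ : ∃ n, k = n + 4 := ⟨k - 4, by omega⟩
  refine ⟨GG n, ?_, ?_⟩
  · intro T hT
    have hcl := hT.isClique
    have hcard := hT.card_eq
    have key : ∀ f i, ind T (ed n f i).1 * ind T (ed n f i).2 = 0 := by
      intro f i
      by_contra h0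
      have h1 : ind T (ed n f i).1 ≠ 0 := fun h => h0 (by rw [h, zero_mul])
      have h2 : ind T (ed n f i).2 ≠ 0 := fun h => h0 (by rw [h, mul_zero])
      have h3 : finProdFinEquiv (ed n f i).1 ∈ T := by
        by_contra h
        exact h1 (if_neg h)
      have h4 : finProdFinEquiv (ed n f i).2 ∈ T := by
        by_contra h
        exact h2 (if_neg h)
      have h5 : finProdFinEquiv (ed n f i).1 ≠ finProdFinEquiv (ed n f i).2 :=
        fun h => ed_ne n f i (finProdFinEquiv.injective h)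
      have h6 : (GG n)ᶜ.Adj (finProdFinEquiv (ed n f i).1) (finProdFinEquiv (ed n f i).2) :=
        hcl (mem_coe.2 h3) (mem_coe.2 h4) h5
      rw [SimpleGraph.compl_adj] at h6
      apply h6.2
      rw [adj_iff]
      exact ⟨h5, Or.inl ⟨f, i, by rw [Equiv.symm_apply_apply, Equiv.symm_apply_apply]⟩⟩
    have h := hA n (fun i => ind T (0, i)) (fun i => ind T (1, i)) (fun i => ind T (2, i))
      (fun i => ind_le T _) (fun i => ind_le T _) (fun i => ind_le T _)
      (fun i => key 0 i) (fun i => key 1 i) (fun i => key 2 i) (fun i => key 3 i)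
      (fun i => key 4 i)
    have h' := card_eq T
    rw [hcard] at h'
    rw [← h'] at h
    omega
  · intro S hS3
    have h01 : ∀ p, ((ind S p : ℕ) : ℤ) = 0 ∨ ((ind S p : ℕ) : ℤ) = 1 := by
      intro p
      unfold ind
      split_ifs <;> simp
    have hc := card_eq S
    have h := hS n (fun i => (ind S (0, i) : ℤ)) (fun i => (ind S (1, i) : ℤ))
      (fun i => (ind S (2, i) : ℤ)) (fun i => h01 _) (fun i => h01 _) (fun i => h01 _) (by
        have h1 : (3 : ℤ) ≤ (S.card : ℤ) := by exact_mod_cast hS3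
        rw [hc] at h1
        push_cast at h1
        exact h1)
    have ha := arcs_le S
    have e1 : (∑ i, ((ind S (0, i) : ℤ) + (ind S (1, i) : ℤ) + (ind S (2, i) : ℤ))) =
        (S.card : ℤ) := by
      rw [hc]
      push_cast
      rfl
    have e2 : (∑ i, ((ind S (0, i) : ℤ) * (ind S (0, i + 1) : ℤ) +
        (ind S (0, i) : ℤ) * (ind S (1, i) : ℤ) + (ind S (0, i) : ℤ) * (ind S (2, i + 1) : ℤ) +
        (ind S (1, i) : ℤ) * (ind S (2, i) : ℤ) + (ind S (2, i) : ℤ) * (ind S (1, i + 1) : ℤ))) =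
        (es S : ℤ) := by
      unfold es
      push_cast
      rfl
    rw [e1, e2] at h
    have hR : ((es S : ℝ) - 1) * (3 * ((n : ℝ) + 4) - 2) ≤
        (5 * ((n : ℝ) + 4) - 1) * ((S.card : ℝ) - 2) := by
      exact_mod_cast h
    have haR : (arcs (GG n) S : ℝ) ≤ 2 * (es S : ℝ) := by exact_mod_cast ha
    have hpos : (0 : ℝ) ≤ 3 * ((n : ℝ) + 4) - 2 := by
      have : (0 : ℝ) ≤ (n : ℝ) := Nat.cast_nonneg n
      linarith
    push_cast
    refine le_trans ?_ hR
    apply mul_le_mul_of_nonneg_right _ hpos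
    linarith

end Pool.Agent.W997.TD2UB
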