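import Pool.Agent.W894.MB.Defs2

set_option autoImplicit false

namespace Pool.Agent.W997.MCLb

open Set Pool.Agent.W894.MB

universe u v w z a b

/-- A product with an infinite set which is at least as large. -/
theorem prod_emb {A : Type a} {B : Type b} [Infinite B] (h : Nonempty (A ↪ B)) :
    Nonempty (A × B ↪ B) := by
  obtain ⟨e⟩ := h
  have h1 : Nonempty (B × B ≃ B) := by
    apply Cardinal.eq.1
    rw [Cardinal.mk_prod, Cardinal.lift_id, Cardinal.mul_eq_self (Cardinal.aleph0_le_mk B)]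
  obtain ⟨f⟩ := h1
  exact ⟨(e.prodMap (Function.Embedding.refl B)).trans f.toEmbedding⟩

theorem main1 : G_LB.{u, v, z} := by
  classical
  intro Z K _ Y _ hY p hp
  obtain ⟨emb⟩ := hY
  let g : ∀ y : Y, {x | (p y).f x ≠ none} ↪ Z := fun y => (p y).small.some
  have hg : ∀ (y y' : Y) (_ : y = y') (x x' : K) (hx : (p y).f x ≠ none)
      (hx' : (p y').f x' ≠ none), g y ⟨x, hx⟩ = g y' ⟨x', hx'⟩ → x = x' := by
    intro y y' h x x' hx hx' h2
    subst h
    have h3 := (g y).injective h2
    exact congrArg Subtype.val h3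
  let F : K → Option K := fun x =>
    if h : ∃ y, (p y).f x ≠ none then (p h.choose).f x else none
  have hF : ∀ (y : Y) (x t : K), (p y).f x = some t → F x = some t := by
    intro y x t ht
    have h : ∃ y, (p y).f x ≠ none := ⟨y, by rw [ht]; simp⟩
    have h1 : F x = (p h.choose).f x := dif_pos h
    rw [h1]
    have h2 := h.choose_spec
    rcases le_total y h.choose with h3 | h3
    · exact hp y h.choose h3 x t ht
    · obtain ⟨t', ht'⟩ := Option.ne_none_iff_exists'.1 h2
      have h4 := hp h.choose y h3 x t' ht'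
      rw [ht] at h4
      rw [ht']
      exact h4.symm
  have hF2 : ∀ x, F x ≠ none → ∃ y, (p y).f x ≠ none := by
    intro x hx
    by_contra h
    exact hx (dif_neg h)
  have hF3 : ∀ (x : K) (h : ∃ y, (p y).f x ≠ none), F x = (p h.choose).f x :=
    fun x h => dif_pos h
  refine ⟨⟨F, ?_, ?_⟩, ?_, hF2⟩
  · let E : {x | F x ≠ none} → Y × Z := fun x =>
      ((hF2 x.1 x.2).choose, g (hF2 x.1 x.2).choose ⟨x.1, (hF2 x.1 x.2).choose_spec⟩)
    have hE : Function.Injective E := by
      intro x x' h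
      have h1 : (hF2 x.1 x.2).choose = (hF2 x'.1 x'.2).choose := congrArg Prod.fst h
      have h2 : g (hF2 x.1 x.2).choose ⟨x.1, (hF2 x.1 x.2).choose_spec⟩ =
          g (hF2 x'.1 x'.2).choose ⟨x'.1, (hF2 x'.1 x'.2).choose_spec⟩ := congrArg Prod.snd h
      exact Subtype.ext (hg _ _ h1 _ _ _ _ h2)
    exact ⟨⟨fun x => emb (E x), fun x x' h => hE (emb.injective h)⟩⟩
  · intro x t ht
    have h : ∃ y, (p y).f x ≠ none := hF2 x (by rw [ht]; simp)
    rw [hF3 x h] at ht
    exact (p h.choose).regr x t ht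
  · intro y x t ht
    exact hF y x t ht

theorem main2 : G_ARITH.{u, w} := by
  intro I _ F i
  have : Infinite (F.Z i) := Infinite.of_injective (Sum.inr : ℕ → F.Z i) Sum.inr_injective
  refine ⟨?_, ?_, ?_⟩
  · refine ⟨⟨fun o => match o with
      | none => Sum.inr 0
      | some (Sum.inl a) => Sum.inl a
      | some (Sum.inr n) => Sum.inr (n + 1), ?_⟩⟩
    intro o o' h
    rcases o with _ | (a | n) <;> rcases o' with _ | (a' | n') <;> simp_all
  · exact prod_emb ⟨⟨Sum.inr, Sum.inr_injective⟩⟩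
  · intro j hj
    refine prod_emb ⟨⟨fun x => Sum.inl ⟨⟨j, hj⟩, x⟩, ?_⟩⟩
    intro x x' h
    have h1 := Sum.inl_injective h
    simpa using h1

end Pool.Agent.W997.MCLb
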